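import Pool.Agent.Lib.MP_aab329_nt.C.Hyper

set_option autoImplicit false

namespace Pool.Agent.Results.MP_aab329_nt.ConeBranchDivisor

/-- Serre's bound `B^(n - 1) (log B)^c` in `n = m + 2` variables for the cover `T^D = F₁ G P^D` of
prime degree `D` (for `D = 2`: every double cover has the form `T^2 = H`) when `F₁ = 0` is a cone
with rational vertex `Q` and `G(Q) ≠ 0`. -/
theorem result {m : ℕ} (D : ℕ) (hD : D.Prime) (F₁ G P : MvPolynomial (Fin (m + 2)) ℚ)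
    (d₁ d₂ : ℕ) (h₁ : F₁.IsHomogeneous d₁) (h₂ : G.IsHomogeneous d₂) (hP : P ≠ 0)
    (Q : Fin (m + 2) → ℚ)
    (hQ : ∀ (x : Fin (m + 2) → ℚ) (c : ℚ),
      MvPolynomial.eval (fun i => x i + c * Q i) F₁ = MvPolynomial.eval x F₁)
    (hGQ : MvPolynomial.eval Q G ≠ 0)
    (hfs : ∀ (c : ℚ) (R : MvPolynomial (Fin (m + 2)) ℚ), F₁ ≠ MvPolynomial.C c * R ^ D)
    (hGs : ∀ (c : ℚ) (R : MvPolynomial (Fin (m + 2)) ℚ), G ≠ MvPolynomial.C c * R ^ D) :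
    ∃ (c : ℕ) (C : ℝ), ∀ B : ℕ, 2 ≤ B →
      (({x : Fin (m + 2) → ℤ | (∀ i, |x i| ≤ (B : ℤ)) ∧
          ∃ T : ℚ, MvPolynomial.eval (fun i => ((x i : ℤ) : ℚ)) (F₁ * G * P ^ D) =
            T ^ D}.ncard : ℕ) : ℝ)
        ≤ C * (B : ℝ) ^ (m + 1) * (Real.log (B : ℝ)) ^ c := by
  obtain ⟨c, C, h⟩ := Pool.MP_aab329_nt.SerreC.serre_pure D hD 1 (F₁ * G * P ^ D) F₁ G P d₁ d₂
    h₁ h₂ one_ne_zero hP Q hQ hGQ hfs hGs (by rw [one_pow, one_mul])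
  refine ⟨c, C, fun B hB => ?_⟩
  refine le_trans (le_of_eq ?_) (h B hB)
  congr 2
  ext x
  simp only [Set.mem_ofPred_eq, map_one, one_mul]
  constructor
  · rintro ⟨h1, T, hT⟩
    exact ⟨h1, T, hT.symm⟩
  · rintro ⟨h1, T, hT⟩
    exact ⟨h1, T, hT.symm⟩

end Pool.Agent.Results.MP_aab329_nt.ConeBranchDivisor
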