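import Pool.Agent.Lib.MP_aab329_nt.Q.Fin

set_option autoImplicit false

namespace Pool.Agent.Results.MP_aab329_nt.QuadraticBranchPart

/-- Serre's bound `B^n (log B)^c` in `n + 1` variables for double covers whose discriminant has a
factor `a A^2 + b A + d`, `a, b, d` without the first variable, prime to the remaining factor. -/
theorem result {n : ℕ} (F : MvPolynomial (Option (Fin (n + 1))) ℚ) (hdeg : F.degreeOf none = 2)
    (A G P : MvPolynomial (Fin (n + 1)) ℚ) (a b d : MvPolynomial (Fin n) ℚ)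
    (hA : 1 ≤ A.degreeOf 0) (ha : a ≠ 0) (hΔ : b ^ 2 - 4 * a * d ≠ 0) (hG : G ≠ 0) (hP : P ≠ 0)
    (hco : IsRelPrime (MvPolynomial.rename Fin.succ a * A ^ 2 + MvPolynomial.rename Fin.succ b * A +
      MvPolynomial.rename Fin.succ d) G)
    (hdisc : (MvPolynomial.optionEquivLeft ℚ (Fin (n + 1)) F).discr =
      (MvPolynomial.rename Fin.succ a * A ^ 2 + MvPolynomial.rename Fin.succ b * A +
        MvPolynomial.rename Fin.succ d) * G * P ^ 2) :
    ∃ (c : ℕ) (C : ℝ), ∀ B : ℕ, 2 ≤ B →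
      (({x : Fin (n + 1) → ℤ | (∀ i, |x i| ≤ (B : ℤ)) ∧
          ∃ t : ℚ, MvPolynomial.eval
            (fun i : Option (Fin (n + 1)) => Option.elim i t (fun j => ((x j : ℤ) : ℚ))) F =
              0}.ncard : ℕ) : ℝ)
        ≤ C * (B : ℝ) ^ n * (Real.log (B : ℝ)) ^ c :=
  Pool.MP_aab329_nt.SerreQ.serre_q F hdeg A G P a b d hA ha hΔ hG hP hco hdisc

end Pool.Agent.Results.MP_aab329_nt.QuadraticBranchPart
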