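import Pool.Agent.Lib.MP_aab329_nt.R.Fin

set_option autoImplicit false

namespace Pool.Agent.Results.MP_aab329_nt.ReducibleDoublePlanes

/-- Serre's bound `B^2 (log B)^c` for double covers of the projective plane over `ℚ` whose branch
curve splits over `ℚ` into two parts of even degree, neither of them a constant times a square. -/
theorem result (F : MvPolynomial (Option (Fin 3)) ℚ) (hdeg : F.degreeOf none = 2)
    (F₁ F₂ P : MvPolynomial (Fin 3) ℚ) (k₁ k₂ : ℕ)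
    (h₁ : F₁.IsHomogeneous (2 * k₁)) (h₂ : F₂.IsHomogeneous (2 * k₂)) (hP : P ≠ 0)
    (hdisc : (MvPolynomial.optionEquivLeft ℚ (Fin 3) F).discr = F₁ * F₂ * P ^ 2)
    (hco : IsRelPrime F₁ F₂)
    (hs₁ : ∀ (c : ℚ) (Q : MvPolynomial (Fin 3) ℚ), F₁ ≠ MvPolynomial.C c * Q ^ 2)
    (hs₂ : ∀ (c : ℚ) (Q : MvPolynomial (Fin 3) ℚ), F₂ ≠ MvPolynomial.C c * Q ^ 2) :
    ∃ (c : ℕ) (C : ℝ), ∀ B : ℕ, 2 ≤ B →
      (({x : Fin 3 → ℤ | (∀ i, |x i| ≤ (B : ℤ)) ∧ Finset.univ.gcd x = 1 ∧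
          ∃ t : ℚ, MvPolynomial.eval
            (fun i : Option (Fin 3) => Option.elim i t (fun j => ((x j : ℤ) : ℚ))) F = 0}.ncard :
              ℕ) : ℝ)
        ≤ C * (B : ℝ) ^ 2 * (Real.log (B : ℝ)) ^ c :=
  Pool.MP_aab329_nt.SerreR.serre_double F hdeg F₁ F₂ P k₁ k₂ h₁ h₂ hP hdisc hco hs₁ hs₂

end Pool.Agent.Results.MP_aab329_nt.ReducibleDoublePlanes
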