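import Pool.Agent.Lib.MP_aab329_nt.Final

set_option autoImplicit false

namespace Pool.Agent.Results.MP_aab329_nt.TripleCovers

/-- Serre's bound `B^2 (log B)^c` for every triple cover of the projective plane. -/
theorem result (F : MvPolynomial (Option (Fin 3)) ℚ) (d : ℕ) (hF : F.IsHomogeneous d)
    (hirr : Irreducible F) (hdeg : F.degreeOf none = 3) :
    ∃ (c : ℕ) (C : ℝ), ∀ B : ℕ, 2 ≤ B →
      (({x : Fin 3 → ℤ | (∀ i, |x i| ≤ (B : ℤ)) ∧ Finset.univ.gcd x = 1 ∧
          ∃ t : ℚ, MvPolynomial.eval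
            (fun i : Option (Fin 3) => Option.elim i t (fun j => ((x j : ℤ) : ℚ))) F = 0}.ncard :
              ℕ) : ℝ)
        ≤ C * (B : ℝ) ^ 2 * (Real.log (B : ℝ)) ^ c :=
  Pool.MP_aab329_nt.SerreP.serre_cubic F d hF hirr hdeg

end Pool.Agent.Results.MP_aab329_nt.TripleCovers
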